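import Pool.Agent.Helper28.ND.Spec2
import Pool.Agent.Helper19.ND.Tools

/-!
# ND2, part FLIN: linearity
-/

set_option autoImplicit false

namespace Pool.Agent.Helper9.ND.FLIN

open Pool.Agent.Helper28.ND MeasureTheory Set Filter Topology ProbabilityTheory
open Pool.Agent.Helper19.ND (inner_int outer_int gam_prob)

theorem vel_sum {d n : ℕ} (S : ℝ) (F : Fin n → ℝ → (Fin d → ℝ) → ℝ)
    (hF : ∀ j, Measurable (U (F j))) (B : Fin n → ℝ) (hB : ∀ j t x, |F j t x| ≤ B j)
    (i : Fin d) (t : ℝ) (x : Fin d → ℝ) :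
    Vel S (fun t x => ∑ j, F j t x) i t x = ∑ j, Vel S (F j) i t x := by
  unfold Vel
  rw [← integral_finsetSum _ fun j _ => outer_int S (F j) (hF j) (B j) (hB j) i t x]
  refine integral_congr_ae (Eventually.of_forall fun r => ?_)
  change _ = ∑ j, ∫ z, (z i / Real.sqrt (2 * r)) * F j (t + r) (x + Real.sqrt (2 * r) • z) ∂(gam d)
  rw [← integral_finsetSum _ fun j _ => inner_int (F j) (hF j) (B j) (hB j) i t r x]
  refine integral_congr_ae (Eventually.of_forall fun z => ?_)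
  simp only [Finset.mul_sum]

theorem inner_int' {d : ℕ} (F : ℝ → (Fin d → ℝ) → ℝ) (hF : Measurable (U F))
    (B : ℝ) (hB : ∀ t x, |F t x| ≤ B) (t r : ℝ) (x : Fin d → ℝ) :
    Integrable (fun z : Fin d → ℝ => F (t + r) (x + Real.sqrt (2 * r) • z)) (gam d) := by
  have hm : Measurable fun z : Fin d → ℝ => F (t + r) (x + Real.sqrt (2 * r) • z) := by
    have : (fun z : Fin d → ℝ => F (t + r) (x + Real.sqrt (2 * r) • z)) =
      U F ∘ fun z : Fin d → ℝ => ((t + r, x + Real.sqrt (2 * r) • z) : ℝ × (Fin d → ℝ)) := rfl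
    rw [this]
    exact hF.comp (by fun_prop)
  have := gam_prob d
  refine Integrable.mono' (integrable_const B) hm.aestronglyMeasurable
    (Eventually.of_forall fun z => ?_)
  rw [Real.norm_eq_abs]
  exact hB _ _

theorem outer_int' {d : ℕ} (S : ℝ) (F : ℝ → (Fin d → ℝ) → ℝ) (hF : Measurable (U F))
    (B : ℝ) (hB : ∀ t x, |F t x| ≤ B) (t : ℝ) (x : Fin d → ℝ) :
    IntegrableOn (fun r : ℝ => ∫ z, F (t + r) (x + Real.sqrt (2 * r) • z) ∂(gam d))
      (Ioo 0 S) := by
  have := gam_prob d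
  have hm : StronglyMeasurable fun p : ℝ × (Fin d → ℝ) =>
      F (t + p.1) (x + Real.sqrt (2 * p.1) • p.2) := by
    refine Measurable.stronglyMeasurable ?_
    have : (fun p : ℝ × (Fin d → ℝ) => F (t + p.1) (x + Real.sqrt (2 * p.1) • p.2)) =
      U F ∘ fun p : ℝ × (Fin d → ℝ) =>
        ((t + p.1, x + Real.sqrt (2 * p.1) • p.2) : ℝ × (Fin d → ℝ)) := rfl
    rw [this]
    exact hF.comp (by fun_prop)
  have hm2 := hm.integral_prod_right' (ν := gam d)
  have hfin : (volume.restrict (Ioo (0 : ℝ) S)) univ < ⊤ := by simp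
  refine Integrable.mono' (integrableOn_const (C := B) (by simp)) hm2.aestronglyMeasurable
    (Eventually.of_forall fun r => ?_)
  refine le_trans (norm_integral_le_of_norm_le (integrable_const B)
    (Eventually.of_forall fun z => ?_)) ?_
  · rw [Real.norm_eq_abs]
    exact hB _ _
  · simp

theorem phi_sum {d n : ℕ} (S : ℝ) (F : Fin n → ℝ → (Fin d → ℝ) → ℝ)
    (hF : ∀ j, Measurable (U (F j))) (B : Fin n → ℝ) (hB : ∀ j t x, |F j t x| ≤ B j)
    (t : ℝ) (x : Fin d → ℝ) :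
    Phi S (fun t x => ∑ j, F j t x) t x = ∑ j, Phi S (F j) t x := by
  unfold Phi
  rw [← integral_finsetSum _ fun j _ => outer_int' S (F j) (hF j) (B j) (hB j) t x]
  refine integral_congr_ae (Eventually.of_forall fun r => ?_)
  change _ = ∑ j, ∫ z, F j (t + r) (x + Real.sqrt (2 * r) • z) ∂(gam d)
  rw [← integral_finsetSum _ fun j _ => inner_int' (F j) (hF j) (B j) (hB j) t r x]

/-- the reversed source is measurable -/
theorem rf_meas {d : ℕ} {T : ℝ} {b : ℝ → (Fin d → ℝ) → (Fin d → ℝ)}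
    {f : ℝ → (Fin d → ℝ) → ℝ} {v : ℝ → (Fin d → ℝ) → (Fin d → ℝ)} (hb : Measurable (U b))
    (hf : Measurable (U f)) (hv : Measurable (U v)) : Measurable (U (RF T b f v)) := by
  have hs : Measurable fun z : ℝ × (Fin d → ℝ) => ((1 + T - z.1, z.2) : ℝ × (Fin d → ℝ)) := by
    fun_prop
  have h1 : Measurable fun z : ℝ × (Fin d → ℝ) => f (1 + T - z.1) z.2 := hf.comp hs
  have h2 : Measurable fun z : ℝ × (Fin d → ℝ) => b (1 + T - z.1) z.2 := hb.comp hs
  have h3 : Measurable fun z : ℝ × (Fin d → ℝ) => v (1 + T - z.1) z.2 := hv.comp hs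
  have h4 : U (RF T b f v) = fun z : ℝ × (Fin d → ℝ) => f (1 + T - z.1) z.2 -
      ∑ j, b (1 + T - z.1) z.2 j * v (1 + T - z.1) z.2 j := rfl
  rw [h4]
  exact h1.sub (Finset.measurable_sum _ fun j _ =>
    ((measurable_pi_apply j).comp h2).mul ((measurable_pi_apply j).comp h3))

theorem rf_bdd {d : ℕ} {T : ℝ} {b : ℝ → (Fin d → ℝ) → (Fin d → ℝ)}
    {f : ℝ → (Fin d → ℝ) → ℝ} {v : ℝ → (Fin d → ℝ) → (Fin d → ℝ)} {B C : ℝ}
    (hB : ∀ t x, |f t x| ≤ B ∧ ∀ i, |b t x i| ≤ B) (hC : ∀ t x i, |v t x i| ≤ C) (t : ℝ)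
    (x : Fin d → ℝ) : |RF T b f v t x| ≤ B + d * (B * C) := by
  unfold RF
  refine (abs_sub _ _).trans (add_le_add (hB _ _).1 ?_)
  refine (Finset.abs_sum_le_sum_abs _ _).trans ?_
  calc ∑ j, |b (1 + T - t) x j * v (1 + T - t) x j| ≤ ∑ _j : Fin d, B * C := by
        refine Finset.sum_le_sum fun j _ => ?_
        rw [abs_mul]
        exact mul_le_mul ((hB _ _).2 j) (hC _ _ j) (abs_nonneg _)
          ((abs_nonneg _).trans ((hB 0 0).1))
    _ = d * (B * C) := by simp

theorem main : S_FLIN := by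
  intro d T b n f u v hT hn h
  obtain ⟨j0⟩ : Nonempty (Fin n) := ⟨⟨0, hn⟩⟩
  have h0 := (h j0).dat
  choose B hB using fun j => (h j).dat.bdd
  choose C hC using fun j => (h j).bv
  have hrf : RF T b (fun t x => ∑ j, f j t x) (fun t x i => ∑ j, v j t x i) =
      fun t x => ∑ j, RF T b (f j) (v j) t x := by
    funext t x
    unfold RF
    rw [Finset.sum_sub_distrib]
    congr 1
    simp only [Finset.mul_sum]
    rw [Finset.sum_comm]
  refine ⟨⟨h0.mb, h0.pb, h0.sb, ?_, ?_, ?_, ?_, h0.db⟩, ?_, ?_, ?_, ?_, ?_⟩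
  · have : U (fun t x => ∑ j, f j t x) = fun z : ℝ × (Fin d → ℝ) => ∑ j, U (f j) z := rfl
    rw [this]
    exact Finset.measurable_sum _ fun j _ => (h j).dat.mf
  · intro t x k
    exact Finset.sum_congr rfl fun j _ => (h j).dat.pf t x k
  · intro t ht x
    exact Finset.sum_eq_zero fun j _ => (h j).dat.sf t ht x
  · have hB0 : ∀ j, 0 ≤ B j := fun j => (abs_nonneg _).trans (hB j 0 0).1
    refine ⟨∑ j, B j, fun t x => ⟨?_, fun i => ?_⟩⟩
    · exact (Finset.abs_sum_le_sum_abs _ _).trans (Finset.sum_le_sum fun j _ => (hB j t x).1)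
    · exact ((hB j0 t x).2 i).trans (Finset.single_le_sum (f := B) (fun j _ => hB0 j)
        (Finset.mem_univ j0))
  · have : U (fun t x i => ∑ j, v j t x i) =
        fun z : ℝ × (Fin d → ℝ) => fun i => ∑ j, U (v j) z i := rfl
    rw [this]
    exact measurable_pi_lambda _ fun i => Finset.measurable_sum _ fun j _ =>
      (measurable_pi_apply i).comp (h j).mv
  · intro t x k
    funext i
    exact Finset.sum_congr rfl fun j _ => congrFun ((h j).pv t x k) i
  · refine ⟨∑ j, C j, fun t x i => ?_⟩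
    exact (Finset.abs_sum_le_sum_abs _ _).trans (Finset.sum_le_sum fun j _ => hC j t x i)
  · intro t x i
    rw [hrf, vel_sum (1 + T) (fun j => RF T b (f j) (v j))
      (fun j => rf_meas (h j).dat.mb (h j).dat.mf (h j).mv) _
      (fun j t x => rf_bdd (hB j) (hC j) t x)]
    exact Finset.sum_congr rfl fun j _ => (h j).ev t x i
  · intro t x
    rw [hrf, phi_sum (1 + T) (fun j => RF T b (f j) (v j))
      (fun j => rf_meas (h j).dat.mb (h j).dat.mf (h j).mv) _
      (fun j t x => rf_bdd (hB j) (hC j) t x)]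
    exact Finset.sum_congr rfl fun j _ => (h j).eu t x

end Pool.Agent.Helper9.ND.FLIN
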