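import Pool.Agent.Helper28.ND.Spec2
import Pool.Agent.Helper19.ND.MAX

/-!
# ND2, part FSUP: the maximum principle with a barrier which follows the source
-/

set_option autoImplicit false

namespace Pool.Agent.Helper9.ND.FSUP

open Pool.Agent.Helper28.ND Pool.Agent.Helper19.ND Pool.Agent.Helper19.ND.MAX MeasureTheory Set
  Filter Topology

/-- the maximum principle with a general barrier -/
theorem upperM (hWEQ : S_WEQ) (hKB : S_KB) (hMOLG : S_MOLG) (hMOLD : S_MOLD) (hENER : S_ENER)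
    {d : ℕ} {S K H : ℝ} {c : ℝ → (Fin d → ℝ) → (Fin d → ℝ)} {h : ℝ → (Fin d → ℝ) → ℝ}
    {v : ℝ → (Fin d → ℝ) → (Fin d → ℝ)} (hS : 1 < S) (hdual : Dual d S K H c h v)
    (M m : ℝ → ℝ) (hMs : ContDiff ℝ 1 M) (hMd : ∀ t, deriv M t = - m t)
    (hm : ∀ t, 0 ≤ m t ∧ m t ≤ H) (hmc : Continuous m) (hM0 : ∀ t, t ≤ S + 1 → 0 ≤ M t)
    (hh : ∀ t x, h t x ≤ m t) :
    ∀ᵐ z : ℝ × (Fin d → ℝ), 0 < z.1 → z.1 ≤ S + 1 → Phi S (FF c h v) z.1 z.2 ≤ M z.1 := by
  have hS0 : 0 < S := by linarith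
  have hH0 : 0 ≤ H := le_trans (abs_nonneg _) (hdual.dat.bh 0 0)
  have hsrc : Src S (FF c h v) := PIC.ff_src hdual.dat ⟨hdual.measv, hdual.perv, hdual.bv⟩
  set F := FF c h v with hFdef
  have hF : BMP F := ⟨hsrc.meas, hsrc.per, hsrc.bdd⟩
  obtain ⟨hφ, hV, hz, _⟩ := hKB d S F hS0 hsrc
  set φ := Phi S F with hφdef
  set V : Fin d → ℝ → (Fin d → ℝ) → ℝ := fun i => Vel S F i with hVdef
  obtain ⟨mφs, mφb, mφc, mφz⟩ := hMOLG d φ hφ
  obtain ⟨mFs, mFb, mFc, _⟩ := hMOLG d F hF
  have mV := fun i => hMOLG d (V i) (hV i)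
  obtain ⟨Bφ, hBφ⟩ := hφ.bdd
  obtain ⟨BF, hBF⟩ := hF.bdd
  choose BV hBV using fun i => (hV i).bdd
  have hBφ0 : 0 ≤ Bφ := le_trans (abs_nonneg _) (hBφ 0 0)
  have hBF0 : 0 ≤ BF := le_trans (abs_nonneg _) (hBF 0 0)
  have hBV0 : ∀ i, 0 ≤ BV i := fun i => le_trans (abs_nonneg _) (hBV i 0 0)
  have bφ := mφb Bφ (Eventually.of_forall fun z _ => hBφ _ _)
  have bF := mFb BF (Eventually.of_forall fun z _ => hBF _ _)
  have bV := fun i => (mV i).2.1 (BV i) (Eventually.of_forall fun z _ => hBV i _ _)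
  have dφ := (hMOLD d φ F hφ hF).1 (fun f hf => (hWEQ d S F hS0 hsrc f hf).1)
  have dV := fun i => (hMOLD d φ (V i) hφ (hV i)).2 i (fun f hf => (hWEQ d S F hS0 hsrc f hf).2 i)
  set T1 : ℝ := S + 1 with hT1
  have mM : Measurable fun z : ℝ × (Fin d → ℝ) => M z.1 :=
    hMs.continuous.measurable.comp measurable_fst
  have mm : Measurable fun z : ℝ × (Fin d → ℝ) => m z.1 := hmc.measurable.comp measurable_fst
  -- measurability
  have msφ : ∀ n, Measurable (U (mol n φ)) := fun n => (mφs n).smooth.continuous.measurable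
  have msF : ∀ n, Measurable (U (mol n F)) := fun n => (mFs n).smooth.continuous.measurable
  have msV : ∀ i n, Measurable (U (mol n (V i))) :=
    fun i n => ((mV i).1 n).smooth.continuous.measurable
  let W : ℕ → ℝ × (Fin d → ℝ) → ℝ := fun n z => U (mol n φ) z - M z.1
  let J : ℕ → ℝ × (Fin d → ℝ) → ℝ := fun n z =>
    3 * (max (W n z) 0) ^ 2 * (U (mol n F) z - m z.1) -
      6 * (max (W n z) 0) * ∑ i, (U (mol n (V i)) z) ^ 2
  let R : ℕ → ℝ × (Fin d → ℝ) → ℝ := fun n z =>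
    U (mol n F) z - ((∑ i, (U c z) i * U (mol n (V i)) z) + U h z)
  have mW : ∀ n, Measurable (W n) := fun n => (msφ n).sub mM
  have mG : ∀ n, Measurable fun z => gg (W n z) := fun n => ((mW n).max measurable_const).pow_const 3
  have mJ : ∀ n, Measurable (J n) := by
    intro n
    refine Measurable.sub ?_ ?_
    · exact ((((mW n).max measurable_const).pow_const 2).const_mul 3).mul
        ((msF n).sub mm)
    · exact (((mW n).max measurable_const).const_mul 6).mul
        (Finset.measurable_fun_sum _ fun i _ => (msV i n).pow_const 2)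
  have mR : ∀ n, Measurable (R n) := by
    intro n
    refine (msF n).sub (Measurable.add (Finset.measurable_fun_sum _ fun i _ => ?_) hdual.dat.meash)
    exact ((measurable_pi_apply i).comp hdual.dat.measc).mul (msV i n)
  have mRa : ∀ n, Measurable fun z => |R n z| := fun n => (mR n).abs
  -- bounds
  have hwb : ∀ (n : ℕ) t x, 1 / (4 * ((n : ℝ) + 1)) < t → t ≤ T1 →
      0 ≤ max (W n (t, x)) 0 ∧ max (W n (t, x)) 0 ≤ Bφ := by
    intro n t x h1 h2
    refine ⟨le_max_right _ _, max_le ?_ hBφ0⟩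
    have h3 := (le_abs_self _).trans (bφ n t x h1)
    have h4 : 0 ≤ M t := hM0 t h2
    change mol n φ t x - M t ≤ Bφ
    linarith
  have hgb : ∀ (n : ℕ) t x, 1 / (4 * ((n : ℝ) + 1)) < t → t ≤ T1 → |gg (W n (t, x))| ≤ Bφ ^ 3 := by
    intro n t x h1 h2
    obtain ⟨a1, a2⟩ := hwb n t x h1 h2
    unfold gg
    rw [abs_of_nonneg (by positivity)]
    exact pow_le_pow_left₀ a1 a2 3
  set CR : ℝ := BF + (∑ i, |K| * BV i) + H with hCR
  have hRb : ∀ (n : ℕ) t x, 1 / (4 * ((n : ℝ) + 1)) < t → |R n (t, x)| ≤ CR := by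
    intro n t x h1
    change |mol n F t x - ((∑ i, c t x i * mol n (V i) t x) + h t x)| ≤ CR
    refine (abs_sub _ _).trans ?_
    have e1 := bF n t x h1
    have e2 : |(∑ i, c t x i * mol n (V i) t x) + h t x| ≤ (∑ i, |K| * BV i) + H := by
      refine (abs_add_le _ _).trans (add_le_add ?_ (hdual.dat.bh t x))
      refine (Finset.abs_sum_le_sum_abs _ _).trans (Finset.sum_le_sum fun i _ => ?_)
      rw [abs_mul]
      exact mul_le_mul ((hdual.dat.bc t x i).trans (le_abs_self K)) (bV i n t x h1) (abs_nonneg _)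
        (abs_nonneg _)
    linarith
  set CJ : ℝ := 3 * Bφ ^ 2 * (BF + H) + 6 * Bφ * ∑ i, (BV i) ^ 2 with hCJ
  have hJb : ∀ (n : ℕ) t x, 1 / (4 * ((n : ℝ) + 1)) < t → t ≤ T1 → |J n (t, x)| ≤ CJ := by
    intro n t x h1 h2
    obtain ⟨a1, a2⟩ := hwb n t x h1 h2
    set w := max (W n (t, x)) 0 with hw
    change |3 * w ^ 2 * (mol n F t x - m t) - 6 * w * ∑ i, (mol n (V i) t x) ^ 2| ≤ CJ
    refine (abs_sub _ _).trans (add_le_add ?_ ?_)
    · rw [abs_mul, abs_of_nonneg (by positivity : (0 : ℝ) ≤ 3 * w ^ 2)]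
      have e1 : |mol n F t x - m t| ≤ BF + H := by
        refine (abs_sub _ _).trans ?_
        rw [abs_of_nonneg (hm t).1]
        linarith [bF n t x h1, (hm t).2]
      have e2 : 3 * w ^ 2 ≤ 3 * Bφ ^ 2 := by
        have := pow_le_pow_left₀ a1 a2 2
        linarith
      exact mul_le_mul e2 e1 (abs_nonneg _) (by positivity)
    · have e0 : 0 ≤ ∑ i, (mol n (V i) t x) ^ 2 := Finset.sum_nonneg fun i _ => sq_nonneg _
      rw [abs_of_nonneg (by positivity)]
      have e1 : ∑ i, (mol n (V i) t x) ^ 2 ≤ ∑ i, (BV i) ^ 2 := by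
        refine Finset.sum_le_sum fun i _ => ?_
        rw [← sq_abs]
        exact pow_le_pow_left₀ (abs_nonneg _) (bV i n t x h1) 2
      exact mul_le_mul (by linarith) e1 e0 (by positivity)
  set A : ℝ := d * (3 / 8 * K ^ 2) with hA
  have hA0 : 0 ≤ A := by positivity
  set G1 : ℝ := 3 * Bφ ^ 2 with hG1
  have hG10 : 0 ≤ G1 := by positivity
  have hpt : ∀ (n : ℕ) t x, 1 / (4 * ((n : ℝ) + 1)) < t → t ≤ T1 →
      J n (t, x) ≤ A * gg (W n (t, x)) + G1 * |R n (t, x)| := by
    intro n t x h1 h2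
    obtain ⟨a1, a2⟩ := hwb n t x h1 h2
    set w := max (W n (t, x)) 0 with hw
    have e1 : mol n F t x - m t = R n (t, x) + (∑ i, c t x i * mol n (V i) t x) +
        (h t x - m t) := by
      change _ = (mol n F t x - ((∑ i, c t x i * mol n (V i) t x) + h t x)) + _ + _
      ring
    have e2 : h t x - m t ≤ 0 := by
      have := hh t x
      linarith
    have e3 : 3 * w ^ 2 * (∑ i, c t x i * mol n (V i) t x) ≤
        6 * w * (∑ i, (mol n (V i) t x) ^ 2) + A * w ^ 3 := by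
      have e4 : 6 * w * (∑ i, (mol n (V i) t x) ^ 2) + A * w ^ 3 =
          ∑ i : Fin d, (6 * w * (mol n (V i) t x) ^ 2 + 3 / 8 * K ^ 2 * w ^ 3) := by
        rw [Finset.sum_add_distrib, Finset.mul_sum, Finset.sum_const, Finset.card_univ,
          Fintype.card_fin, nsmul_eq_mul, hA]
        ring
      rw [e4, Finset.mul_sum]
      exact Finset.sum_le_sum fun i _ => pw w _ _ K a1 (hdual.dat.bc t x i)
    have e5 : 3 * w ^ 2 * R n (t, x) ≤ G1 * |R n (t, x)| := by
      have e6 : 3 * w ^ 2 ≤ G1 := by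
        have := pow_le_pow_left₀ a1 a2 2
        rw [hG1]
        linarith
      calc 3 * w ^ 2 * R n (t, x) ≤ 3 * w ^ 2 * |R n (t, x)| :=
            mul_le_mul_of_nonneg_left (le_abs_self _) (by positivity)
        _ ≤ G1 * |R n (t, x)| := mul_le_mul_of_nonneg_right e6 (abs_nonneg _)
    have e7 : 3 * w ^ 2 * (h t x - m t) ≤ 0 := mul_nonpos_of_nonneg_of_nonpos (by positivity) e2
    change 3 * w ^ 2 * (mol n F t x - m t) - 6 * w * (∑ i, (mol n (V i) t x) ^ 2) ≤
      A * w ^ 3 + G1 * |R n (t, x)|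
    rw [e1]
    nlinarith
  let Y : ℕ → ℝ → ℝ := fun n t => ∫ x in Q d, gg (W n (t, x))
  -- the energy identity
  have hen : ∀ (n : ℕ) τ, 1 / (4 * ((n : ℝ) + 1)) ≤ τ → τ ≤ T1 →
      Y n τ = ∫ t in Ioc τ T1, ∫ x in Q d, J n (t, x) := by
    intro n τ h1 h2
    have h3 := hENER d (mol n φ) gg M (mφs n) gg_smooth hMs τ T1 h2
    have hn4 : 1 / (4 * ((n : ℝ) + 1)) ≤ 1 := by
      rw [div_le_one (by positivity)]
      have : (0 : ℝ) ≤ n := n.cast_nonneg
      linarith
    have h4 : ∫ x in Q d, gg (mol n φ T1 x - M T1) = 0 := by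
      have h5 : ∀ x, gg (mol n φ T1 x - M T1) = 0 := by
        intro x
        rw [mφz S (fun t ht x => (hz t ht x).1) n T1 (by rw [hT1]; linarith) x]
        unfold gg
        rw [max_eq_right (by linarith [hM0 T1 le_rfl])]
        norm_num
      simp [h5]
    rw [h4, zero_sub] at h3
    have h6 : Y n τ = -∫ t in Ioc τ T1, ∫ x in Q d,
        (deriv gg (mol n φ t x - M t) * (dt (mol n φ) t x + lap (mol n φ t) x - deriv M t) +
          deriv (deriv gg) (mol n φ t x - M t) * ∑ i, (pd i (mol n φ t) x) ^ 2) := by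
      rw [← h3, neg_neg]
      rfl
    rw [h6, ← integral_neg]
    refine setIntegral_congr_fun measurableSet_Ioc fun t ht => ?_
    have ht' : 1 / (4 * ((n : ℝ) + 1)) < t := lt_of_le_of_lt h1 ht.1
    change -∫ x in Q d, _ = ∫ x in Q d, J n (t, x)
    rw [← integral_neg]
    refine integral_congr_ae (Eventually.of_forall fun x => ?_)
    change -(deriv gg (mol n φ t x - M t) * (dt (mol n φ) t x + lap (mol n φ t) x - deriv M t) +
      deriv (deriv gg) (mol n φ t x - M t) * ∑ i, (pd i (mol n φ t) x) ^ 2) =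
      3 * (max (mol n φ t x - M t) 0) ^ 2 * (mol n F t x - m t) -
      6 * (max (mol n φ t x - M t) 0) * ∑ i, (mol n (V i) t x) ^ 2
    rw [dφ n t x ht', hMd, gg_deriv2, gg_deriv]
    have h7 : ∑ i, (pd i (mol n φ t) x) ^ 2 = ∑ i, (mol n (V i) t x) ^ 2 :=
      Finset.sum_congr rfl fun i _ => by rw [dV i n t x ht']
    rw [h7]
    change -(3 * (max (mol n φ t x - M t) 0) ^ 2 * (-mol n F t x - -m t) +
      6 * (max (mol n φ t x - M t) 0) * ∑ i, (mol n (V i) t x) ^ 2) = _
    ring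
  -- the limit function
  let Wl : ℝ × (Fin d → ℝ) → ℝ := fun z => U φ z - M z.1
  have hlimW : ∀ᵐ z : ℝ × (Fin d → ℝ), Tendsto (fun n => gg (W n z)) atTop (𝓝 (gg (Wl z))) := by
    filter_upwards [mφc] with z hz1
    have hc : Continuous gg := by
      unfold gg
      fun_prop
    exact (hc.tendsto _).comp (hz1.sub_const _)
  have hlimR : ∀ᵐ z : ℝ × (Fin d → ℝ), Tendsto (fun n => |R n z|) atTop (𝓝 0) := by
    have hall : ∀ᵐ z : ℝ × (Fin d → ℝ), ∀ i, Tendsto (fun n => U (mol n (V i)) z) atTop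
        (𝓝 (U (V i) z)) := ae_all_iff.2 fun i => (mV i).2.2.1
    filter_upwards [hall, mFc] with z hz1 hz2
    have h1 : Tendsto (fun n => R n z) atTop (𝓝 (U F z - ((∑ i, (U c z) i * U (V i) z) + U h z))) := by
      refine hz2.sub (Tendsto.add_const _ (tendsto_finsetSum _ fun i _ => ?_))
      exact (hz1 i).const_mul _
    have h2 : U F z - ((∑ i, (U c z) i * U (V i) z) + U h z) = 0 := by
      change F z.1 z.2 - ((∑ i, c z.1 z.2 i * Vel S F i z.1 z.2) + h z.1 z.2) = 0
      have h3 : F z.1 z.2 = (∑ i, c z.1 z.2 i * v z.1 z.2 i) + h z.1 z.2 := rfl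
      rw [h3]
      have h4 : ∀ i, v z.1 z.2 i = Vel S F i z.1 z.2 := fun i => hdual.eq _ _ _
      simp_rw [h4]
      ring
    rw [h2] at h1
    have := h1.abs
    rwa [abs_zero] at this
  -- the main step
  have key : ∀ τ0 : ℝ, 0 < τ0 → τ0 ≤ T1 →
      ∀ᵐ z : ℝ × (Fin d → ℝ), z ∈ Ioc τ0 T1 ×ˢ Q d → gg (Wl z) = 0 := by
    intro τ0 hτ0 hτ1
    set Pr : Set (ℝ × (Fin d → ℝ)) := Ioc τ0 T1 ×ˢ Q d with hPr
    have hPm : MeasurableSet Pr := measurableSet_Ioc.prod (meas_Q d)
    have hPf : IsFiniteMeasure ((volume : Measure (ℝ × (Fin d → ℝ))).restrict Pr) := by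
      refine ⟨?_⟩
      rw [Measure.restrict_apply_univ, Measure.volume_eq_prod, Measure.prod_prod, vol_Q, mul_one,
        Real.volume_Ioc]
      exact ENNReal.ofReal_lt_top
    have hev : ∀ᶠ n : ℕ in atTop, 1 / (4 * ((n : ℝ) + 1)) < τ0 := by
      have h1 : Tendsto (fun n : ℕ => (1 / 4 : ℝ) * (1 / ((n : ℝ) + 1))) atTop (𝓝 (1 / 4 * 0)) :=
        tendsto_one_div_add_atTop_nhds_zero_nat.const_mul _
      rw [mul_zero] at h1
      filter_upwards [h1.eventually (gt_mem_nhds hτ0)] with n hn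
      have h2 : 1 / (4 * ((n : ℝ) + 1)) = (1 / 4 : ℝ) * (1 / ((n : ℝ) + 1)) := by
        field_simp
      rw [h2]
      exact hn
    let δ : ℕ → ℝ := fun n => G1 * ∫ z in Pr, |R n z|
    have hδ0 : ∀ n, 0 ≤ δ n := fun n =>
      mul_nonneg hG10 (integral_nonneg fun z => abs_nonneg _)
    have hδlim : Tendsto δ atTop (𝓝 0) := by
      have h1 : Tendsto (fun n => ∫ z in Pr, |R n z|) atTop
          (𝓝 (∫ _z in Pr, (0 : ℝ))) := by
        refine tendsto_integral_filter_of_dominated_convergence (fun _ => CR) ?_ ?_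
          (integrable_const _) ?_
        · exact Eventually.of_forall fun n => (mRa n).aestronglyMeasurable
        · filter_upwards [hev] with n hn
          refine (ae_restrict_iff' hPm).2 (Eventually.of_forall fun z hz1 => ?_)
          rw [Real.norm_eq_abs, abs_abs]
          exact hRb n z.1 z.2 (hn.trans hz1.1.1)
        · exact ae_restrict_of_ae hlimR
      rw [integral_zero] at h1
      have h2 := h1.const_mul G1
      rwa [mul_zero] at h2
    have hYb : ∀ᶠ n : ℕ in atTop, ∫ z in Pr, gg (W n z) ≤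
        (T1 - τ0) * (2 * δ n * Real.exp (2 * (A + 1) * T1)) := by
      filter_upwards [hev] with n hn
      have hb1 := bm (fun z => gg (W n z)) (mG n) τ0 T1 (Bφ ^ 3)
        (fun t x h1 h2 => hgb n t x (hn.trans h1) h2)
      have hYi : IntegrableOn (Y n) (Ioc τ0 T1) := hb1.2.1
      have hgr := gron (Y n) τ0 T1 A (Bφ ^ 3) (δ n) hA0 (by positivity) (hδ0 n) (by
          intro τ h1 h2
          have h3 := norm_integral_le_of_norm_le (μ := volume.restrict (Q d))
            (integrable_const (Bφ ^ 3)) (f := fun x => gg (W n (τ, x)))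
            (Eventually.of_forall fun x => hgb n τ x (lt_of_lt_of_le hn h1) h2)
          refine (le_abs_self _).trans (h3.trans (le_of_eq ?_))
          simp) hYi (by
          intro τ h1 h2
          have hJ := bm (J n) (mJ n) τ T1 CJ
            (fun t x h3 h4 => hJb n t x (hn.trans (lt_of_le_of_lt h1 h3)) h4)
          have hG := bm (fun z => gg (W n z)) (mG n) τ T1 (Bφ ^ 3)
            (fun t x h3 h4 => hgb n t x (hn.trans (lt_of_le_of_lt h1 h3)) h4)
          have hR := bm (fun z => |R n z|) (mRa n) τ0 T1 CR (fun t x h3 h4 => by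
            rw [abs_abs]
            exact hRb n t x (hn.trans h3))
          have hsub : Ioc τ T1 ×ˢ Q d ⊆ Pr := Set.prod_mono (Ioc_subset_Ioc_left h1) Subset.rfl
          rw [hen n τ (hn.le.trans h1) h2, hJ.2.2.2]
          have e1 : ∫ z in Ioc τ T1 ×ˢ Q d, J n z ≤
              ∫ z in Ioc τ T1 ×ˢ Q d, (A * gg (W n z) + G1 * |R n z|) := by
            refine setIntegral_mono_on hJ.2.2.1
              ((hG.2.2.1.const_mul A).add ((hR.2.2.1.mono_set hsub).const_mul G1))
              (measurableSet_Ioc.prod (meas_Q d)) fun z hz1 => ?_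
            exact hpt n z.1 z.2 (hn.trans (lt_of_le_of_lt h1 hz1.1.1)) hz1.1.2
          have e2 : ∫ z in Ioc τ T1 ×ˢ Q d, (A * gg (W n z) + G1 * |R n z|) =
              A * (∫ z in Ioc τ T1 ×ˢ Q d, gg (W n z)) +
                G1 * ∫ z in Ioc τ T1 ×ˢ Q d, |R n z| := by
            rw [integral_add (hG.2.2.1.const_mul A) ((hR.2.2.1.mono_set hsub).const_mul G1),
              integral_const_mul, integral_const_mul]
          have e3 : ∫ z in Ioc τ T1 ×ˢ Q d, |R n z| ≤ ∫ z in Pr, |R n z| :=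
            setIntegral_mono_set hR.2.2.1 (Eventually.of_forall fun z => abs_nonneg _)
              (Eventually.of_forall hsub)
          have e4 : ∫ z in Ioc τ T1 ×ˢ Q d, gg (W n z) = ∫ t in Ioc τ T1, Y n t :=
            hG.2.2.2.symm
          rw [e2, e4] at e1
          refine e1.trans (add_le_add le_rfl (mul_le_mul_of_nonneg_left e3 hG10)))
      have e5 : ∫ z in Pr, gg (W n z) = ∫ t in Ioc τ0 T1, Y n t := hb1.2.2.2.symm
      rw [e5]
      have e6 : ∫ t in Ioc τ0 T1, Y n t ≤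
          ∫ _t in Ioc τ0 T1, (2 * δ n * Real.exp (2 * (A + 1) * T1)) := by
        refine setIntegral_mono_on hYi (integrableOn_const (by
            rw [Real.volume_Ioc]
            exact ENNReal.ofReal_ne_top)) measurableSet_Ioc fun t ht => ?_
        refine (hgr t ht.1.le ht.2).trans ?_
        refine mul_le_mul_of_nonneg_left (Real.exp_le_exp.2 ?_) (mul_nonneg zero_le_two (hδ0 n))
        refine mul_le_mul_of_nonneg_left ?_ (by positivity)
        linarith [ht.1]
      refine e6.trans (le_of_eq ?_)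
      rw [setIntegral_const, measureReal_def, Real.volume_Ioc,
        ENNReal.toReal_ofReal (by linarith), smul_eq_mul]
    have hconv : Tendsto (fun n => ∫ z in Pr, gg (W n z)) atTop (𝓝 (∫ z in Pr, gg (Wl z))) := by
      refine tendsto_integral_filter_of_dominated_convergence (fun _ => Bφ ^ 3) ?_ ?_
        (integrable_const _) ?_
      · exact Eventually.of_forall fun n => (mG n).aestronglyMeasurable
      · filter_upwards [hev] with n hn
        refine (ae_restrict_iff' hPm).2 (Eventually.of_forall fun z hz1 => ?_)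
        exact hgb n z.1 z.2 (hn.trans hz1.1.1) hz1.1.2
      · exact ae_restrict_of_ae hlimW
    have hle : ∫ z in Pr, gg (Wl z) ≤ 0 := by
      have h1 : Tendsto (fun n => (T1 - τ0) * (2 * δ n * Real.exp (2 * (A + 1) * T1))) atTop
          (𝓝 ((T1 - τ0) * (2 * 0 * Real.exp (2 * (A + 1) * T1)))) :=
        ((hδlim.const_mul 2).mul_const _).const_mul _
      rw [mul_zero, zero_mul, mul_zero] at h1
      exact le_of_tendsto_of_tendsto hconv h1 hYb
    have hnn : ∀ z, 0 ≤ gg (Wl z) := fun z => by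
      unfold gg
      positivity
    have hmWl : Measurable fun z => gg (Wl z) :=
      ((hφ.meas.sub mM).max measurable_const).pow_const 3
    have hint : IntegrableOn (fun z => gg (Wl z)) Pr := by
      refine (bm (fun z => gg (Wl z)) hmWl τ0 T1 (Bφ ^ 3) (fun t x h1 h2 => ?_)).2.2.1
      rw [abs_of_nonneg (hnn _)]
      unfold gg
      refine pow_le_pow_left₀ (le_max_right _ _) (max_le ?_ hBφ0) 3
      have h3 := (le_abs_self _).trans (hBφ t x)
      have h4 : 0 ≤ M t := hM0 t h2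
      change φ t x - M t ≤ Bφ
      linarith
    have hzero : ∫ z in Pr, gg (Wl z) = 0 := le_antisymm hle (integral_nonneg hnn)
    have h5 := (integral_eq_zero_iff_of_nonneg (μ := volume.restrict Pr) hnn hint).1 hzero
    have h6 := (ae_restrict_iff' hPm).1 h5
    filter_upwards [h6] with z hz1 hz2
    exact hz1 hz2
  have hkey2 := ae_all_iff.2 fun m : ℕ => (by
    by_cases hm : 1 / ((m : ℝ) + 1) ≤ T1
    · exact key (1 / ((m : ℝ) + 1)) (by positivity) hm
    · refine Eventually.of_forall fun z hz1 => ?_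
      exfalso
      push Not at hm
      have h1 := hz1.1.1
      have h2 := hz1.1.2
      linarith : ∀ᵐ z : ℝ × (Fin d → ℝ), z ∈ Ioc (1 / ((m : ℝ) + 1)) T1 ×ˢ Q d → gg (Wl z) = 0)
  refine per_ae (fun z => 0 < z.1 → z.1 ≤ T1 → φ z.1 z.2 ≤ M z.1) ?_ ?_
  · intro t x k h1 h0 h0'
    have h2 := h1 h0 h0'
    change φ t (fun i => x i + (k i : ℝ)) ≤ M t at h2
    rw [hφ.per t x k] at h2
    exact h2
  · filter_upwards [hkey2] with z hz1 hzQ h0 hT
    obtain ⟨m, hm⟩ := exists_nat_one_div_lt h0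
    have h1 := hz1 m ⟨⟨hm, hT⟩, hzQ⟩
    have h2 : Wl z ≤ 0 := by
      by_contra hcon
      push Not at hcon
      unfold gg at h1
      rw [max_eq_left hcon.le] at h1
      have := pow_pos hcon 3
      linarith
    have h3 : φ z.1 z.2 - M z.1 ≤ 0 := h2
    linarith



/-- the cutoff -/
noncomputable def chi (a b e t : ℝ) : ℝ := max 0 (min 1 (min ((t - a) / e + 1) ((b - t) / e + 1)))

theorem chi_cont (a b e : ℝ) : Continuous (chi a b e) := by
  unfold chi
  fun_prop

theorem chi_nonneg (a b e t : ℝ) : 0 ≤ chi a b e t := le_max_left _ _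

theorem chi_le (a b e t : ℝ) : chi a b e t ≤ 1 := max_le zero_le_one (min_le_left _ _)

theorem chi_one {a b e t : ℝ} (he : 0 < e) (h1 : a ≤ t) (h2 : t ≤ b) : chi a b e t = 1 := by
  unfold chi
  have e1 : 0 ≤ (t - a) / e := div_nonneg (by linarith) he.le
  have e2 : 0 ≤ (b - t) / e := div_nonneg (by linarith) he.le
  rw [min_eq_left (le_min (by linarith) (by linarith))]
  simp

theorem chi_zero {a b e t : ℝ} (he : 0 < e) (h : t ∉ Icc (a - e) (b + e)) : chi a b e t = 0 := by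
  unfold chi
  refine max_eq_left ?_
  rw [mem_Icc, not_and_or, not_le, not_le] at h
  rcases h with h | h
  · refine (min_le_right _ _).trans ((min_le_left _ _).trans ?_)
    have : (t - a) / e ≤ -1 := by
      rw [div_le_iff₀ he]
      linarith
    linarith
  · refine (min_le_right _ _).trans ((min_le_right _ _).trans ?_)
    have : (b - t) / e ≤ -1 := by
      rw [div_le_iff₀ he]
      linarith
    linarith

theorem barrier (T1 H a b e : ℝ) (hH : 0 ≤ H) (hab : a ≤ b) (he : 0 < e) :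
    ∃ M : ℝ → ℝ, ContDiff ℝ 1 M ∧ (∀ t, deriv M t = - (H * chi a b e t)) ∧
      (∀ t, t ≤ T1 → 0 ≤ M t) ∧ ∀ t, t ≤ T1 → M t ≤ H * (b - a + 2 * e) := by
  have hc : Continuous fun t => H * chi a b e t := continuous_const.mul (chi_cont a b e)
  have hi : ∀ x y : ℝ, IntervalIntegrable (fun t => H * chi a b e t) volume x y :=
    fun x y => hc.intervalIntegrable _ _
  have hd : ∀ t, HasDerivAt (fun t => (∫ s in (0 : ℝ)..T1, H * chi a b e s) -
      ∫ s in (0 : ℝ)..t, H * chi a b e s) (- (H * chi a b e t)) t := by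
    intro t
    exact (intervalIntegral.integral_hasDerivAt_right (hi 0 t)
      (hc.stronglyMeasurableAtFilter _ _) hc.continuousAt).const_sub _
  have hM : ∀ t, (∫ s in (0 : ℝ)..T1, H * chi a b e s) - ∫ s in (0 : ℝ)..t, H * chi a b e s =
      ∫ s in t..T1, H * chi a b e s := by
    intro t
    rw [intervalIntegral.integral_interval_sub_left (hi 0 T1) (hi 0 t)]
  refine ⟨fun t => (∫ s in (0 : ℝ)..T1, H * chi a b e s) - ∫ s in (0 : ℝ)..t, H * chi a b e s,
    ?_, fun t => (hd t).deriv, ?_, ?_⟩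
  · rw [contDiff_one_iff_deriv]
    refine ⟨fun t => (hd t).differentiableAt, ?_⟩
    have : deriv (fun t => (∫ s in (0 : ℝ)..T1, H * chi a b e s) -
      ∫ s in (0 : ℝ)..t, H * chi a b e s) = fun t => - (H * chi a b e t) :=
      funext fun t => (hd t).deriv
    rw [this]
    exact hc.neg
  · intro t ht
    beta_reduce
    rw [hM t]
    exact intervalIntegral.integral_nonneg ht fun s _ => mul_nonneg hH (chi_nonneg _ _ _ _)
  · intro t ht
    beta_reduce
    rw [hM t, intervalIntegral.integral_of_le ht]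
    have hind : Integrable ((Icc (a - e) (b + e)).indicator fun _ : ℝ => H) :=
      (integrable_indicator_iff measurableSet_Icc).2 (integrableOn_const (by simp))
    have h0 : ∀ s, 0 ≤ (Icc (a - e) (b + e)).indicator (fun _ : ℝ => H) s :=
      fun s => indicator_nonneg (fun _ _ => hH) s
    calc ∫ s in Ioc t T1, H * chi a b e s
        ≤ ∫ s in Ioc t T1, (Icc (a - e) (b + e)).indicator (fun _ => H) s := by
          refine integral_mono ((hi t T1).1) hind.integrableOn fun s => ?_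
          by_cases hs : s ∈ Icc (a - e) (b + e)
          · rw [indicator_of_mem hs]
            exact mul_le_of_le_one_right hH (chi_le _ _ _ _)
          · rw [indicator_of_notMem hs, chi_zero he hs, mul_zero]
      _ ≤ ∫ s, (Icc (a - e) (b + e)).indicator (fun _ => H) s :=
          setIntegral_le_integral hind (Eventually.of_forall h0)
      _ = H * (b - a + 2 * e) := by
          rw [integral_indicator measurableSet_Icc, setIntegral_const, measureReal_def,
            Real.volume_Icc, ENNReal.toReal_ofReal (by linarith), smul_eq_mul]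
          ring

/-- the dual problem of a forward solution -/
theorem dual_of {d : ℕ} {T H : ℝ} {b : ℝ → (Fin d → ℝ) → (Fin d → ℝ)}
    {f : ℝ → (Fin d → ℝ) → ℝ} {u : ℝ → (Fin d → ℝ) → ℝ} {v : ℝ → (Fin d → ℝ) → (Fin d → ℝ)}
    (h : FSol d T b f u v) {B : ℝ} (hB : ∀ t x i, |b t x i| ≤ B) (hf : ∀ t x, |f t x| ≤ H) :
    Dual d (1 + T) B H (fun t x i => - b (1 + T - t) x i) (fun t => f (1 + T - t))
      (fun t => v (1 + T - t)) := by
  have hs : Measurable (fun z : ℝ × (Fin d → ℝ) => ((1 + T - z.1, z.2) : ℝ × (Fin d → ℝ))) := by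
    fun_prop
  have ht2 : ∀ t : ℝ, (t ≤ 1 ∨ 1 + T ≤ t) → (1 + T - t ≤ 0 ∨ T ≤ 1 + T - t) := by
    intro t ht
    rcases ht with h | h
    · right; linarith
    · left; linarith
  obtain ⟨C, hC⟩ := h.bv
  refine ⟨⟨(h.dat.mb.comp hs).neg, ?_, ?_, ?_, h.dat.mf.comp hs, fun t => h.dat.pf _,
    fun t x => hf _ _, fun t ht x => h.dat.sf _ (ht2 t ht) x⟩, h.mv.comp hs, fun t => h.pv _,
    ⟨C, fun t x i => hC _ _ _⟩, ?_⟩
  · intro t x k
    funext i
    show - b (1 + T - t) (fun i => x i + (k i : ℝ)) i = - b (1 + T - t) x i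
    rw [h.dat.pb (1 + T - t) x k]
  · intro t x i
    rw [abs_neg]
    exact hB _ _ _
  · intro t ht x i
    show - b (1 + T - t) x i = 0
    rw [h.dat.sb _ (ht2 t ht), neg_zero]
  · intro t x i
    have h1 := h.ev (1 + T - t) x i
    have h2 : 1 + T - (1 + T - t) = t := by ring
    rw [h2] at h1
    rw [h1]
    congr 1
    funext s y
    unfold RF FF
    simp only [neg_mul, Finset.sum_neg_distrib]
    ring

theorem rf_ff {d : ℕ} (T : ℝ) (b : ℝ → (Fin d → ℝ) → (Fin d → ℝ)) (f : ℝ → (Fin d → ℝ) → ℝ)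
    (v : ℝ → (Fin d → ℝ) → (Fin d → ℝ)) :
    FF (fun t x i => - b (1 + T - t) x i) (fun t => f (1 + T - t)) (fun t => v (1 + T - t)) =
      RF T b f v := by
  funext s y
  unfold RF FF
  simp only [neg_mul, Finset.sum_neg_distrib]
  ring

/-- the a.e. upper bound -/
theorem ae_upper (hWEQ : S_WEQ) (hKB : S_KB) (hMOLG : S_MOLG) (hMOLD : S_MOLD) (hENER : S_ENER)
    {d : ℕ} {T : ℝ} {b : ℝ → (Fin d → ℝ) → (Fin d → ℝ)}
    {f : ℝ → (Fin d → ℝ) → ℝ} {u : ℝ → (Fin d → ℝ) → ℝ} {v : ℝ → (Fin d → ℝ) → (Fin d → ℝ)}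
    (hT : 0 < T) (h : FSol d T b f u v) {H s0 s1 : ℝ} (hs : s0 ≤ s1) (hH : 0 ≤ H)
    (hf : ∀ t x, |f t x| ≤ H) (hf0 : ∀ t, (t ≤ s0 ∨ s1 ≤ t) → ∀ x, f t x = 0) :
    ∀ᵐ z : ℝ × (Fin d → ℝ), 0 < z.1 → z.1 ≤ 1 + T + 1 →
      u (1 + T - z.1) z.2 ≤ H * (s1 - s0) := by
  obtain ⟨B, hB⟩ := h.dat.bdd
  have hdual := dual_of h (fun t x i => (hB t x).2 i) hf
  have hk : ∀ k : ℕ, ∀ᵐ z : ℝ × (Fin d → ℝ), 0 < z.1 → z.1 ≤ 1 + T + 1 →
      u (1 + T - z.1) z.2 ≤ H * (s1 - s0 + 2 * (1 / ((k : ℝ) + 1))) := by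
    intro k
    have he : 0 < 1 / ((k : ℝ) + 1) := by positivity
    obtain ⟨M, hM1, hM2, hM3, hM4⟩ := barrier (1 + T + 1) H (1 + T - s1) (1 + T - s0)
      (1 / ((k : ℝ) + 1)) hH (by linarith) he
    have h1 := upperM hWEQ hKB hMOLG hMOLD hENER (by linarith : 1 < 1 + T) hdual M
      (fun t => H * chi (1 + T - s1) (1 + T - s0) (1 / ((k : ℝ) + 1)) t) hM1 hM2
      (fun t => ⟨mul_nonneg hH (chi_nonneg _ _ _ _),
        mul_le_of_le_one_right hH (chi_le _ _ _ _)⟩)
      (continuous_const.mul (chi_cont _ _ _)) hM3 (by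
        intro t x
        by_cases ht : 1 + T - t ≤ s0 ∨ s1 ≤ 1 + T - t
        · rw [hf0 _ ht x]
          exact mul_nonneg hH (chi_nonneg _ _ _ _)
        · push Not at ht
          rw [chi_one he (by linarith) (by linarith), mul_one]
          exact (le_abs_self _).trans (hf _ _))
    rw [rf_ff] at h1
    filter_upwards [h1] with z hz h2 h3
    have h4 : u (1 + T - z.1) z.2 = Phi (1 + T) (RF T b f v) z.1 z.2 := by
      rw [h.eu]
      congr 1
      ring
    rw [h4]
    refine (hz h2 h3).trans ((hM4 _ h3).trans (le_of_eq ?_))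
    ring
  filter_upwards [ae_all_iff.2 hk] with z hz h1 h2
  have h3 : Tendsto (fun k : ℕ => H * (s1 - s0 + 2 * (1 / ((k : ℝ) + 1)))) atTop
      (𝓝 (H * (s1 - s0 + 2 * 0))) :=
    ((tendsto_one_div_add_atTop_nhds_zero_nat.const_mul 2).const_add _).const_mul _
  rw [mul_zero, add_zero] at h3
  exact ge_of_tendsto' h3 fun k => hz k h1 h2

/-- the solution of the negative problem -/
theorem fsol_neg {d : ℕ} {T : ℝ} {b : ℝ → (Fin d → ℝ) → (Fin d → ℝ)}
    {f : ℝ → (Fin d → ℝ) → ℝ} {u : ℝ → (Fin d → ℝ) → ℝ} {v : ℝ → (Fin d → ℝ) → (Fin d → ℝ)}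
    (h : FSol d T b f u v) :
    FSol d T b (fun t x => - f t x) (fun t x => - u t x) (fun t x i => - v t x i) := by
  have hRF : RF T b (fun t x => - f t x) (fun t x i => - v t x i) =
      fun t x => - RF T b f v t x := by
    funext t x
    unfold RF
    simp only [mul_neg, Finset.sum_neg_distrib]
    ring
  obtain ⟨B, hB⟩ := h.dat.bdd
  obtain ⟨C, hC⟩ := h.bv
  refine ⟨⟨h.dat.mb, h.dat.pb, h.dat.sb, h.dat.mf.neg, ?_, ?_, ⟨B, ?_⟩, h.dat.db⟩, h.mv.neg, ?_,
    ⟨C, ?_⟩, ?_, ?_⟩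
  · intro t x k
    show - f t _ = - f t x
    rw [h.dat.pf t x k]
  · intro t ht x
    show - f t x = 0
    rw [h.dat.sf t ht x, neg_zero]
  · intro t x
    rw [abs_neg]
    exact hB t x
  · intro t x k
    funext i
    show - v t (fun i => x i + (k i : ℝ)) i = - v t x i
    rw [h.pv t x k]
  · intro t x i
    rw [abs_neg]
    exact hC _ _ _
  · intro t x i
    rw [hRF, vel_neg, ← h.ev]
  · intro t x
    rw [hRF, phi_neg, ← h.eu]

theorem upper_all (hWEQ : S_WEQ) (hKB : S_KB) (hMOLG : S_MOLG) (hMOLD : S_MOLD) (hENER : S_ENER)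
    (hFREG : S_FREG)
    {d : ℕ} {T : ℝ} {b : ℝ → (Fin d → ℝ) → (Fin d → ℝ)}
    {f : ℝ → (Fin d → ℝ) → ℝ} {u : ℝ → (Fin d → ℝ) → ℝ} {v : ℝ → (Fin d → ℝ) → (Fin d → ℝ)}
    (hT : 0 < T) (h : FSol d T b f u v) {H s0 s1 : ℝ} (hs : s0 ≤ s1) (hH : 0 ≤ H)
    (hf : ∀ t x, |f t x| ≤ H) (hf0 : ∀ t, (t ≤ s0 ∨ s1 ≤ t) → ∀ x, f t x = 0) (t : ℝ)
    (x : Fin d → ℝ) (ht : t ≤ T) : u t x ≤ H * (s1 - s0) := by
  obtain ⟨hu, hu0, ⟨C, hC⟩, hut⟩ := hFREG d T b f u v hT h
  by_cases ht0 : t ≤ 0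
  · rw [hu0 t ht0 x]
    exact mul_nonneg hH (by linarith)
  push Not at ht0
  have hae := ae_upper hWEQ hKB hMOLG hMOLD hENER hT h hs hH hf hf0
  have hcont : Continuous (fun z : (Fin d → ℝ) × ℝ => u z.2 z.1) := by
    refine continuous_prod_of_continuous_lipschitzWith _ (Real.toNNReal C) (fun x => hut x)
      fun t => LipschitzWith.of_dist_le_mul fun x y => ?_
    rw [Real.dist_eq, dist_eq_norm]
    refine (hC t x y).trans (mul_le_mul_of_nonneg_right ?_ (norm_nonneg _))
    exact Real.le_coe_toNNReal C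
  have hcont2 : Continuous (fun z : ℝ × (Fin d → ℝ) => u (1 + T - z.1) z.2) := by
    have : (fun z : ℝ × (Fin d → ℝ) => u (1 + T - z.1) z.2) =
      (fun z : (Fin d → ℝ) × ℝ => u z.2 z.1) ∘ fun z : ℝ × (Fin d → ℝ) => (z.2, 1 + T - z.1) := rfl
    rw [this]
    exact hcont.comp (by fun_prop)
  by_contra hcon
  push Not at hcon
  set O : Set (ℝ × (Fin d → ℝ)) :=
    {z | 0 < z.1 ∧ z.1 < 1 + T + 1 ∧ H * (s1 - s0) < u (1 + T - z.1) z.2} with hO
  have hOo : IsOpen O := by
    refine (isOpen_lt continuous_const continuous_fst).inter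
      ((isOpen_lt continuous_fst continuous_const).inter (isOpen_lt continuous_const hcont2))
  have hOn : ((1 + T - t, x) : ℝ × (Fin d → ℝ)) ∈ O := by
    refine ⟨?_, ?_, ?_⟩
    · change 0 < 1 + T - t
      linarith
    · change 1 + T - t < 1 + T + 1
      linarith
    · change H * (s1 - s0) < u (1 + T - (1 + T - t)) x
      have : 1 + T - (1 + T - t) = t := by ring
      rw [this]
      exact hcon
  have hpos : 0 < (volume : Measure (ℝ × (Fin d → ℝ))) O := hOo.measure_pos _ ⟨_, hOn⟩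
  have hzero : (volume : Measure (ℝ × (Fin d → ℝ))) O = 0 := by
    have : ∀ᵐ z : ℝ × (Fin d → ℝ), z ∉ O := by
      filter_upwards [hae] with z hz hzO
      exact absurd (hz hzO.1 hzO.2.1.le) (not_le.2 hzO.2.2)
    simpa [ae_iff] using this
  exact hpos.ne' hzero

theorem main (hWEQ : S_WEQ) (hKB : S_KB) (hMOLG : S_MOLG) (hMOLD : S_MOLD) (hENER : S_ENER)
    (hFREG : S_FREG) : S_FSUP := by
  intro d T b f u v hT h H s0 s1 h0 hs hH hf hf0 t x ht
  rw [abs_le]
  constructor
  · have h1 := upper_all hWEQ hKB hMOLG hMOLD hENER hFREG hT (fsol_neg h) hs hH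
      (fun t x => by rw [abs_neg]; exact hf t x)
      (fun t ht x => by rw [hf0 t ht x, neg_zero]) t x ht
    linarith
  · exact upper_all hWEQ hKB hMOLG hMOLD hENER hFREG hT h hs hH hf hf0 t x ht

end Pool.Agent.Helper9.ND.FSUP
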